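import Mathlib

/-!
# Groups with a retraction from the monoid of finite subsets are right orderable

`σ : Finset G → G` is a retraction: `σ {g} = g` and `σ (X * Y) = σ X * σ Y` for nonempty `X, Y`.

We say that `A` absorbs `z` if adding `z` to any finite set containing `A` does not change `σ`.
This relation is transitive, translation invariant and satisfies a cancellation law. The relation
`X ⊢ Y` iff `X⁻¹ * Y` absorbs `1` satisfies the cut rule; its prime models give chains of subsets
of `G` on which `G` acts.
-/

set_option autoImplicit false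
open scoped Pointwise

namespace Pool.Agent.Lib.MP_ee01d4_al

variable {G : Type*} [Group G] [DecidableEq G]

/-- A retraction of the monoid of finite nonempty subsets of `G` onto `G`. -/
structure IsRetraction (σ : Finset G → G) : Prop where
  single : ∀ g : G, σ {g} = g
  mul : ∀ X Y : Finset G, X.Nonempty → Y.Nonempty → σ (X * Y) = σ X * σ Y

/-- `A` absorbs `z`: adding `z` to a finite set that contains `A` does not change `σ`. -/
def Absorbs (σ : Finset G → G) (A : Finset G) (z : G) : Prop :=
  ∀ B : Finset G, σ (insert z (A ∪ B)) = σ (A ∪ B)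

variable {σ : Finset G → G}

omit [Group G] in
theorem Absorbs.of_mem {A : Finset G} {z : G} (h : z ∈ A) : Absorbs σ A z := by
  intro B
  rw [Finset.insert_eq_of_mem (Finset.mem_union_left _ h)]

omit [Group G] in
theorem Absorbs.mono {A A' : Finset G} {z : G} (h : Absorbs σ A z) (hA : A ⊆ A') :
    Absorbs σ A' z := by
  intro B
  have e : A' ∪ B = A ∪ (A' ∪ B) := by
    rw [← Finset.union_assoc, Finset.union_eq_right.mpr hA]
  rw [e]
  exact h _

omit [Group G] in
theorem Absorbs.add_all {A A' : Finset G} (h : ∀ a ∈ A, Absorbs σ A' a) (B : Finset G) :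
    σ (A ∪ (A' ∪ B)) = σ (A' ∪ B) := by
  induction A using Finset.induction_on with
  | empty => simp
  | insert a A _ ih =>
    have h1 : insert a A ∪ (A' ∪ B) = insert a (A' ∪ (A ∪ B)) := by
      ext x
      simp only [Finset.mem_union, Finset.mem_insert]
      tauto
    have h2 : A' ∪ (A ∪ B) = A ∪ (A' ∪ B) := by
      ext x
      simp only [Finset.mem_union]
      tauto
    rw [h1, h a (Finset.mem_insert_self _ _) (A ∪ B), h2]
    exact ih (fun b hb => h b (Finset.mem_insert_of_mem hb))

omit [Group G] in
theorem Absorbs.trans {A A' : Finset G} {z : G} (h : Absorbs σ A z)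
    (hA : ∀ a ∈ A, Absorbs σ A' a) : Absorbs σ A' z := by
  intro B
  have h1 := Absorbs.add_all hA (insert z B)
  have h2 := h (A' ∪ B)
  have h3 := Absorbs.add_all hA B
  have e1 : A ∪ (A' ∪ insert z B) = insert z (A ∪ (A' ∪ B)) := by
    ext x
    simp only [Finset.mem_union, Finset.mem_insert]
    tauto
  have e2 : A' ∪ insert z B = insert z (A' ∪ B) := by
    ext x
    simp only [Finset.mem_union, Finset.mem_insert]
    tauto
  rw [e1, e2] at h1
  rw [← h1, h2, h3]

theorem Absorbs.mul_left (hσ : IsRetraction σ) {A : Finset G} {z : G} (hA : A.Nonempty)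
    (h : Absorbs σ A z) (g : G) : Absorbs σ ({g} * A) (g * z) := by
  intro B
  have key : ∀ X : Finset G, X.Nonempty → σ ({g} * X) = g * σ X := by
    intro X hX
    rw [hσ.mul _ _ (Finset.singleton_nonempty g) hX, hσ.single]
  have e : {g} * ({g⁻¹} * B) = B := by
    rw [← mul_assoc, Finset.singleton_mul_singleton, mul_inv_cancel]
    exact one_mul B
  have e1 : {g} * (A ∪ {g⁻¹} * B) = {g} * A ∪ B := by
    rw [Finset.mul_union, e]
  have e2 : {g} * (insert z (A ∪ {g⁻¹} * B)) = insert (g * z) ({g} * A ∪ B) := by
    rw [Finset.insert_eq, Finset.mul_union, Finset.singleton_mul_singleton, e1,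
      ← Finset.insert_eq]
  have hne : (A ∪ {g⁻¹} * B).Nonempty := hA.mono Finset.subset_union_left
  rw [← e2, ← e1, key _ hne, key _ (Finset.insert_nonempty _ _), h]

/-- The cancellation law. -/
theorem Absorbs.cancel (hσ : IsRetraction σ) {A B : Finset G} (hA : A.Nonempty)
    (hB : B.Nonempty) (h : ∀ b ∈ B, Absorbs σ (B * A) b) : Absorbs σ A 1 := by
  intro D
  have h1 := Absorbs.add_all h (B * D)
  have hne : (A ∪ D).Nonempty := hA.mono Finset.subset_union_left
  have e1 : B * A ∪ B * D = B * (A ∪ D) := by rw [Finset.mul_union]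
  have e2 : B * insert 1 (A ∪ D) = B ∪ B * (A ∪ D) := by
    rw [Finset.insert_eq, Finset.mul_union]
    congr 1
    exact mul_one B
  rw [e1, ← e2, hσ.mul _ _ hB hne, hσ.mul _ _ hB (Finset.insert_nonempty _ _)] at h1
  exact mul_left_cancel h1

/-- The cut rule. -/
theorem Absorbs.cut (hσ : IsRetraction σ) {p q : Finset G} (hp : p.Nonempty) (hq : q.Nonempty)
    (h1 : Absorbs σ (q ∪ p * q) 1) (h2 : Absorbs σ (p ∪ p * q) 1) : Absorbs σ (p * q) 1 := by
  have hpq : (p * q).Nonempty := hp.mul hq
  have hb : ∀ b ∈ p, Absorbs σ (insert 1 p * (p * q)) b := by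
    intro b hb
    have h3 := h1.mul_left hσ (hq.mono Finset.subset_union_left) b
    rw [mul_one] at h3
    refine h3.mono ?_
    rw [Finset.mul_union]
    refine Finset.union_subset ?_ ?_
    · refine (Finset.mul_subset_mul_right (Finset.singleton_subset_iff.mpr hb)).trans ?_
      intro x hx
      have := Finset.mul_mem_mul (Finset.mem_insert_self (1 : G) p) hx
      rwa [one_mul] at this
    · refine Finset.mul_subset_mul_right ?_
      exact Finset.singleton_subset_iff.mpr (Finset.mem_insert_of_mem hb)
  refine Absorbs.cancel hσ hpq (Finset.insert_nonempty 1 p) ?_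
  intro b hb'
  rcases Finset.mem_insert.mp hb' with rfl | hb'
  · refine h2.trans ?_
    intro a ha
    rcases Finset.mem_union.mp ha with ha | ha
    · exact hb a ha
    · refine Absorbs.of_mem ?_
      have := Finset.mul_mem_mul (Finset.mem_insert_self (1 : G) p) ha
      rwa [one_mul] at this
  · exact hb b hb'

end Pool.Agent.Lib.MP_ee01d4_al
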