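import Pool.Agent.Lib.MP_ee01d4_al.Core

/-!
# Prime models of the entailment relation and the unique product property
-/

set_option autoImplicit false
open scoped Pointwise

namespace Pool.Agent.Lib.MP_ee01d4_al

variable {G : Type*} [Group G] [DecidableEq G] {σ : Finset G → G}

/-- The entailment relation `X ⊢ Y` on finite subsets of `G`. -/
def Ent (σ : Finset G → G) (X Y : Finset G) : Prop := Absorbs σ (X⁻¹ * Y) 1

theorem Ent.of_mem {X Y : Finset G} {z : G} (hX : z ∈ X) (hY : z ∈ Y) : Ent σ X Y := by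
  refine Absorbs.of_mem ?_
  have := Finset.mul_mem_mul (Finset.inv_mem_inv hX) hY
  rwa [inv_mul_cancel] at this

theorem Ent.mono {X X' Y Y' : Finset G} (h : Ent σ X Y) (hX : X ⊆ X') (hY : Y ⊆ Y') :
    Ent σ X' Y' :=
  Absorbs.mono h (Finset.mul_subset_mul (Finset.inv_subset_inv hX) hY)

theorem Ent.cut (hσ : IsRetraction σ) {X Y : Finset G} {c : G} (hX : X.Nonempty)
    (hY : Y.Nonempty) (h1 : Ent σ (insert c X) Y) (h2 : Ent σ X (insert c Y)) : Ent σ X Y := by
  have e : X⁻¹ * Y = (X⁻¹ * {c}) * ({c}⁻¹ * Y) := by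
    rw [mul_assoc, ← mul_assoc {c} {c}⁻¹ Y, Finset.inv_singleton, Finset.singleton_mul_singleton,
      mul_inv_cancel]
    congr 1
    exact (one_mul Y).symm
  unfold Ent at *
  have hc : ({c} : Finset G).Nonempty := Finset.singleton_nonempty c
  rw [e]
  refine Absorbs.cut hσ (hX.inv.mul hc) (hc.inv.mul hY) ?_ ?_
  · rw [← e]
    refine h1.mono ?_
    rw [Finset.inv_insert, Finset.insert_eq, Finset.union_mul, Finset.inv_singleton]
  · rw [← e]
    refine h2.mono ?_
    rw [Finset.insert_eq, Finset.mul_union]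

theorem Ent.pair (hσ : IsRetraction σ) (g : G) : Absorbs σ {g, g⁻¹} 1 := by
  refine Absorbs.cancel (B := {1, g}) hσ (Finset.insert_nonempty _ _)
    (Finset.insert_nonempty _ _) ?_
  intro b hb
  refine Absorbs.of_mem ?_
  rw [Finset.mem_insert, Finset.mem_singleton] at hb
  rcases hb with rfl | rfl
  · rw [Finset.mem_mul]
    exact ⟨g, by simp, g⁻¹, by simp, by simp⟩
  · rw [Finset.mem_mul]
    exact ⟨1, by simp, b, by simp, by simp⟩

/-- A prime model of the entailment relation. -/
structure IsModel (σ : Finset G → G) (P : Set G) : Prop where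
  prime : ∀ X Y : Finset G, X.Nonempty → Y.Nonempty → (∀ x ∈ X, x ∈ P) → (∀ y ∈ Y, y ∉ P) →
    ¬ Ent σ X Y

/-- If `x₀` does not entail `y₀`, there is a model that contains `x₀` but not `y₀`. -/
theorem exists_model (hσ : IsRetraction σ) {x₀ y₀ : G} (h : ¬ Ent σ {x₀} {y₀}) :
    ∃ P : Set G, IsModel σ P ∧ x₀ ∈ P ∧ y₀ ∉ P := by
  classical
  let Cons : Set (Set (G ⊕ G)) := {S | Sum.inl x₀ ∈ S ∧ Sum.inr y₀ ∈ S ∧
    ∀ X Y : Finset G, X.Nonempty → Y.Nonempty → (∀ x ∈ X, Sum.inl x ∈ S) →
      (∀ y ∈ Y, Sum.inr y ∈ S) → ¬ Ent σ X Y}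
  have h0 : ({Sum.inl x₀, Sum.inr y₀} : Set (G ⊕ G)) ∈ Cons := by
    refine ⟨by simp, by simp, ?_⟩
    intro X Y hX hY hX' hY' hE
    apply h
    refine hE.mono ?_ ?_
    · intro x hx
      have := hX' x hx
      simpa using this
    · intro y hy
      have := hY' y hy
      simpa using this
  obtain ⟨S, hS0, hS⟩ := zorn_subset_nonempty Cons (by
    intro c hc hchain hne
    refine ⟨⋃₀ c, ?_, fun s hs => Set.subset_sUnion_of_mem hs⟩
    obtain ⟨s, hs⟩ := hne
    refine ⟨⟨s, hs, (hc hs).1⟩, ⟨s, hs, (hc hs).2.1⟩, ?_⟩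
    intro X Y hX hY hX' hY' hE
    have hfin : ((X.image Sum.inl ∪ Y.image Sum.inr : Finset (G ⊕ G)) : Set (G ⊕ G)).Finite :=
      Finset.finite_toSet _
    have hsub : ((X.image Sum.inl ∪ Y.image Sum.inr : Finset (G ⊕ G)) : Set (G ⊕ G)) ⊆ ⋃₀ c := by
      intro z hz
      rw [Finset.mem_coe, Finset.mem_union, Finset.mem_image, Finset.mem_image] at hz
      rcases hz with ⟨x, hx, rfl⟩ | ⟨y, hy, rfl⟩
      · exact hX' x hx
      · exact hY' y hy
    obtain ⟨t, ht, hts⟩ := DirectedOn.exists_mem_subset_of_finite_of_subset_sUnion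
      ⟨s, hs⟩ hchain.directedOn hfin hsub
    refine (hc ht).2.2 X Y hX hY ?_ ?_ hE
    · intro x hx
      apply hts
      rw [Finset.mem_coe, Finset.mem_union]
      exact Or.inl (Finset.mem_image_of_mem _ hx)
    · intro y hy
      apply hts
      rw [Finset.mem_coe, Finset.mem_union]
      exact Or.inr (Finset.mem_image_of_mem _ hy)) _ h0
  have hSC : S ∈ Cons := hS.prop
  -- every element is on one of the two sides
  have htot : ∀ c : G, Sum.inl c ∈ S ∨ Sum.inr c ∈ S := by
    intro c
    by_contra hcon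
    push Not at hcon
    obtain ⟨hc1, hc2⟩ := hcon
    have hl : insert (Sum.inl c) S ∉ Cons := by
      intro hmem
      have := hS.le_of_ge hmem (Set.subset_insert _ _)
      exact hc1 (this (Set.mem_insert _ _))
    have hr : insert (Sum.inr c) S ∉ Cons := by
      intro hmem
      have := hS.le_of_ge hmem (Set.subset_insert _ _)
      exact hc2 (this (Set.mem_insert _ _))
    have hl' : ∃ X Y : Finset G, X.Nonempty ∧ Y.Nonempty ∧
        (∀ x ∈ X, Sum.inl x ∈ insert (Sum.inl c) S) ∧
        (∀ y ∈ Y, Sum.inr y ∈ insert (Sum.inl c) S) ∧ Ent σ X Y := by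
      by_contra hno
      apply hl
      refine ⟨Set.mem_insert_of_mem _ hSC.1, Set.mem_insert_of_mem _ hSC.2.1, ?_⟩
      intro X Y hX hY hX' hY' hE
      exact hno ⟨X, Y, hX, hY, hX', hY', hE⟩
    have hr' : ∃ X Y : Finset G, X.Nonempty ∧ Y.Nonempty ∧
        (∀ x ∈ X, Sum.inl x ∈ insert (Sum.inr c) S) ∧
        (∀ y ∈ Y, Sum.inr y ∈ insert (Sum.inr c) S) ∧ Ent σ X Y := by
      by_contra hno
      apply hr
      refine ⟨Set.mem_insert_of_mem _ hSC.1, Set.mem_insert_of_mem _ hSC.2.1, ?_⟩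
      intro X Y hX hY hX' hY' hE
      exact hno ⟨X, Y, hX, hY, hX', hY', hE⟩
    obtain ⟨X₁, Y₁, hX₁, hY₁, hXS₁, hYS₁, hE₁⟩ := hl'
    obtain ⟨X₂, Y₂, hX₂, hY₂, hXS₂, hYS₂, hE₂⟩ := hr'
    -- the two sides
    let X : Finset G := insert x₀ (X₁.erase c ∪ X₂)
    let Y : Finset G := insert y₀ (Y₁ ∪ Y₂.erase c)
    have hXS : ∀ x ∈ X, Sum.inl x ∈ S := by
      intro x hx
      rcases Finset.mem_insert.mp hx with rfl | hx
      · exact hSC.1
      · rcases Finset.mem_union.mp hx with hx | hx
        · rcases Set.mem_insert_iff.mp (hXS₁ x (Finset.mem_of_mem_erase hx)) with h' | h'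
          · exact absurd (Sum.inl_injective h') (Finset.ne_of_mem_erase hx)
          · exact h'
        · rcases Set.mem_insert_iff.mp (hXS₂ x hx) with h' | h'
          · exact absurd h' (by simp)
          · exact h'
    have hYS : ∀ y ∈ Y, Sum.inr y ∈ S := by
      intro y hy
      rcases Finset.mem_insert.mp hy with rfl | hy
      · exact hSC.2.1
      · rcases Finset.mem_union.mp hy with hy | hy
        · rcases Set.mem_insert_iff.mp (hYS₁ y hy) with h' | h'
          · exact absurd h' (by simp)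
          · exact h'
        · rcases Set.mem_insert_iff.mp (hYS₂ y (Finset.mem_of_mem_erase hy)) with h' | h'
          · exact absurd (Sum.inr_injective h') (Finset.ne_of_mem_erase hy)
          · exact h'
    have hXne : X.Nonempty := Finset.insert_nonempty _ _
    have hYne : Y.Nonempty := Finset.insert_nonempty _ _
    refine hSC.2.2 X Y hXne hYne hXS hYS ?_
    refine Ent.cut (c := c) hσ hXne hYne ?_ ?_
    · refine hE₁.mono ?_ ?_
      · intro x hx
        by_cases hxc : x = c
        · rw [hxc]; exact Finset.mem_insert_self _ _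
        · refine Finset.mem_insert_of_mem (Finset.mem_insert_of_mem (Finset.mem_union_left _ ?_))
          exact Finset.mem_erase.mpr ⟨hxc, hx⟩
      · intro y hy
        exact Finset.mem_insert_of_mem (Finset.mem_union_left _ hy)
    · refine hE₂.mono ?_ ?_
      · intro x hx
        exact Finset.mem_insert_of_mem (Finset.mem_union_right _ hx)
      · intro y hy
        by_cases hyc : y = c
        · rw [hyc]; exact Finset.mem_insert_self _ _
        · refine Finset.mem_insert_of_mem (Finset.mem_insert_of_mem (Finset.mem_union_right _ ?_))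
          exact Finset.mem_erase.mpr ⟨hyc, hy⟩
  refine ⟨{x | Sum.inl x ∈ S}, ⟨?_⟩, hSC.1, ?_⟩
  · intro X Y hX hY hXP hYP
    refine hSC.2.2 X Y hX hY hXP ?_
    intro y hy
    exact (htot y).resolve_left (hYP y hy)
  · intro hy
    refine hSC.2.2 {y₀} {y₀} (Finset.singleton_nonempty _) (Finset.singleton_nonempty _) ?_ ?_
      (Ent.of_mem (Finset.mem_singleton_self y₀) (Finset.mem_singleton_self y₀))
    · intro x hx
      rw [Finset.mem_singleton] at hx
      rw [hx]; exact hy
    · intro y hy'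
      rw [Finset.mem_singleton] at hy'
      rw [hy']; exact hSC.2.1

/-- The right translate `P a` of a set `P`. -/
def tr (P : Set G) (a : G) : Set G := {u | u * a⁻¹ ∈ P}

omit [DecidableEq G] in
theorem tr_mul (P : Set G) (a b : G) : tr P (a * b) = tr (tr P a) b := by
  ext u
  simp only [tr, Set.mem_ofPred_eq, mul_inv_rev, mul_assoc]

omit [DecidableEq G] in
theorem tr_one (P : Set G) : tr P 1 = P := by
  ext u
  simp [tr]

omit [DecidableEq G] in
theorem tr_mono {P Q : Set G} (h : P ⊆ Q) (b : G) : tr P b ⊆ tr Q b := fun _ hu => h hu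

omit [DecidableEq G] in
theorem tr_subset_iff {P Q : Set G} (b : G) : tr P b ⊆ tr Q b ↔ P ⊆ Q := by
  constructor
  · intro h
    have := tr_mono h b⁻¹
    rwa [← tr_mul, ← tr_mul, mul_inv_cancel, tr_one, tr_one] at this
  · intro h
    exact tr_mono h b

omit [DecidableEq G] in
theorem tr_inj {P Q : Set G} {b : G} (h : tr P b = tr Q b) : P = Q :=
  Set.Subset.antisymm ((tr_subset_iff b).mp h.subset) ((tr_subset_iff b).mp h.symm.subset)

/-- The right translates of a model form a chain. -/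
theorem IsModel.total (hσ : IsRetraction σ) {P : Set G} (hP : IsModel σ P) (a b : G) :
    tr P a ⊆ tr P b ∨ tr P b ⊆ tr P a := by
  by_contra hcon
  push Not at hcon
  obtain ⟨h1, h2⟩ := hcon
  obtain ⟨u, hu1, hu2⟩ := Set.not_subset.mp h1
  obtain ⟨v, hv1, hv2⟩ := Set.not_subset.mp h2
  refine hP.prime {u * a⁻¹, v * b⁻¹} {u * b⁻¹, v * a⁻¹} (Finset.insert_nonempty _ _)
    (Finset.insert_nonempty _ _) ?_ ?_ ?_
  · intro x hx
    rw [Finset.mem_insert, Finset.mem_singleton] at hx
    rcases hx with rfl | rfl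
    · exact hu1
    · exact hv1
  · intro x hx
    rw [Finset.mem_insert, Finset.mem_singleton] at hx
    rcases hx with rfl | rfl
    · exact hu2
    · exact hv2
  · refine (Ent.pair hσ (a * b⁻¹)).mono ?_
    intro z hz
    rw [Finset.mem_insert, Finset.mem_singleton] at hz
    rw [Finset.mem_mul]
    rcases hz with rfl | rfl
    · refine ⟨(u * a⁻¹)⁻¹, Finset.inv_mem_inv (by simp), u * b⁻¹, by simp, ?_⟩
      group
    · refine ⟨(v * b⁻¹)⁻¹, Finset.inv_mem_inv (by simp), v * a⁻¹, by simp, ?_⟩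
      group

/-- Two different elements are separated by a model. -/
theorem exists_model_tr_ne (hσ : IsRetraction σ) {a b : G} (hab : a ≠ b) :
    ∃ P : Set G, IsModel σ P ∧ tr P a ≠ tr P b := by
  -- it is enough to find one that separates the identity and `a * b⁻¹`
  have key : ∀ g : G, ¬ Ent σ {1} {g} → ∃ P : Set G, IsModel σ P ∧ tr P g ≠ P := by
    intro g hg
    obtain ⟨P, hP, h1, h2⟩ := exists_model hσ hg
    refine ⟨P, hP, ?_⟩
    intro h
    apply h2
    rw [← h]
    change g * g⁻¹ ∈ P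
    rwa [mul_inv_cancel]
  have hsep : ¬ (Ent σ {1} {a * b⁻¹} ∧ Ent σ {1} {b * a⁻¹}) := by
    rintro ⟨h1, h2⟩
    have e1 : σ (insert 1 {a * b⁻¹}) = a * b⁻¹ := by
      have := h1 ∅
      simp only [Finset.inv_singleton, inv_one, Finset.singleton_mul_singleton, one_mul,
        Finset.union_empty] at this
      rw [this, hσ.single]
    have e2 : σ (insert (a * b⁻¹) {1}) = 1 := by
      have h3 := Absorbs.mul_left hσ (A := ({1} : Finset G)⁻¹ * {b * a⁻¹}) (by simp) h2 (a * b⁻¹)
      have := h3 ∅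
      simp only [Finset.inv_singleton, inv_one, Finset.singleton_mul_singleton, one_mul,
        Finset.union_empty, mul_one] at this
      have e : a * b⁻¹ * (b * a⁻¹) = 1 := by group
      rw [e] at this
      rw [this, hσ.single]
    have e3 : (insert 1 {a * b⁻¹} : Finset G) = insert (a * b⁻¹) {1} := Finset.pair_comm _ _
    rw [e3, e2] at e1
    apply hab
    exact (mul_inv_eq_one.mp e1.symm)
  by_cases h1 : Ent σ {1} {a * b⁻¹}
  · have h2 : ¬ Ent σ {1} {b * a⁻¹} := fun h => hsep ⟨h1, h⟩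
    obtain ⟨P, hP, hne⟩ := key _ h2
    refine ⟨P, hP, ?_⟩
    intro h
    apply hne
    rw [tr_mul, ← h, ← tr_mul, mul_inv_cancel, tr_one]
  · obtain ⟨P, hP, hne⟩ := key _ h1
    refine ⟨P, hP, ?_⟩
    intro h
    apply hne
    rw [tr_mul, h, ← tr_mul, mul_inv_cancel, tr_one]

/-- A finite nonempty set has an element whose translate is the greatest. -/
theorem IsModel.exists_greatest (hσ : IsRetraction σ) {P : Set G} (hP : IsModel σ P) (c : G)
    {A : Finset G} (hA : A.Nonempty) : ∃ a ∈ A, ∀ x ∈ A, tr P (c * x) ⊆ tr P (c * a) := by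
  induction hA using Finset.Nonempty.cons_induction with
  | singleton a => exact ⟨a, by simp, by simp⟩
  | cons a s ha hs ih =>
    obtain ⟨b, hb, hmax⟩ := ih
    rcases hP.total hσ (c * a) (c * b) with h | h
    · refine ⟨b, Finset.mem_cons_of_mem hb, ?_⟩
      intro x hx
      rcases Finset.mem_cons.mp hx with rfl | hx
      · exact h
      · exact hmax x hx
    · refine ⟨a, Finset.mem_cons_self _ _, ?_⟩
      intro x hx
      rcases Finset.mem_cons.mp hx with rfl | hx
      · exact subset_rfl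
      · exact (hmax x hx).trans h

/-- A group with a retraction has the unique product property. -/
theorem exists_uniqueMul (hσ : IsRetraction σ) : ∀ (n : ℕ) (A B : Finset G),
    A.card + B.card = n → A.Nonempty → B.Nonempty →
    ∃ a₀ ∈ A, ∃ b₀ ∈ B, UniqueMul A B a₀ b₀ := by
  intro n
  induction n using Nat.strong_induction_on with
  | _ n ih =>
    intro A B hn hA hB
    by_cases h2 : ∃ a ∈ A, ∃ a' ∈ A, a ≠ a'
    · obtain ⟨a, ha, a', ha', hne⟩ := h2
      obtain ⟨P, hP, hPne⟩ := exists_model_tr_ne hσ hne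
      obtain ⟨a₁, ha₁, hmaxA⟩ := hP.exists_greatest hσ 1 hA
      simp only [one_mul] at hmaxA
      obtain ⟨b₁, hb₁, hmaxB⟩ := hP.exists_greatest hσ a₁ hB
      classical
      let A₁ := A.filter (fun x => tr P x = tr P a₁)
      let B₁ := B.filter (fun y => tr P (a₁ * y) = tr P (a₁ * b₁))
      have hA₁ : A₁.Nonempty := ⟨a₁, Finset.mem_filter.mpr ⟨ha₁, rfl⟩⟩
      have hB₁ : B₁.Nonempty := ⟨b₁, Finset.mem_filter.mpr ⟨hb₁, rfl⟩⟩
      have hcardB : B₁.card ≤ B.card := Finset.card_filter_le _ _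
      have hcardA : A₁.card < A.card := by
        refine Finset.card_lt_card ?_
        refine Finset.filter_ssubset.mpr ?_
        by_contra hcon
        push Not at hcon
        exact hPne ((hcon a ha).trans (hcon a' ha').symm)
      obtain ⟨a₀, ha₀, b₀, hb₀, huniq⟩ := ih (A₁.card + B₁.card) (by omega) A₁ B₁ rfl hA₁ hB₁
      obtain ⟨ha₀A, ha₀e⟩ := Finset.mem_filter.mp ha₀
      obtain ⟨hb₀B, hb₀e⟩ := Finset.mem_filter.mp hb₀
      refine ⟨a₀, ha₀A, b₀, hb₀B, ?_⟩
      intro x y hx hy hxy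
      have e0 : tr P (x * y) = tr P (a₁ * b₁) := by
        rw [hxy, tr_mul, ha₀e, ← tr_mul, hb₀e]
      have s1 : tr P (x * y) ⊆ tr P (a₁ * y) := by
        rw [tr_mul, tr_mul P a₁ y]
        exact tr_mono (hmaxA x hx) y
      have s2 : tr P (a₁ * y) ⊆ tr P (a₁ * b₁) := hmaxB y hy
      have e2 : tr P (a₁ * y) = tr P (a₁ * b₁) :=
        Set.Subset.antisymm s2 (by rw [← e0]; exact s1)
      have e1 : tr P x = tr P a₁ := by
        have : tr P (x * y) = tr P (a₁ * y) := e0.trans e2.symm
        rw [tr_mul, tr_mul P a₁ y] at this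
        exact tr_inj this
      exact huniq (Finset.mem_filter.mpr ⟨hx, e1⟩) (Finset.mem_filter.mpr ⟨hy, e2⟩) hxy
    · push Not at h2
      obtain ⟨a, ha⟩ := hA
      obtain ⟨b, hb⟩ := hB
      refine ⟨a, ha, b, hb, ?_⟩
      intro x y hx hy hxy
      have : x = a := h2 x hx a ha
      subst this
      exact ⟨rfl, mul_left_cancel hxy⟩

theorem uniqueProds (hσ : IsRetraction σ) : UniqueProds G where
  uniqueMul_of_nonempty := fun {A B} hA hB => exists_uniqueMul hσ _ A B rfl hA hB

end Pool.Agent.Lib.MP_ee01d4_al
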